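import Mathlib
import Pool.Agent.AMM.Rank

/-! The kernel and the rank of the average mixing matrix of every distance-regular graph. -/

set_option autoImplicit false
set_option linter.unusedSectionVars false

namespace Pool.Agent.Results.MP_127f79_co.AllDistanceRegular

open Pool.Agent.AMM

variable {V : Type} [Fintype V] [DecidableEq V]

/-- Distance-regular: connected, and for two vertices `u`, `v` the number of neighbours of `v` at
distance `j` from `u` depends only on `j` and on the distance of `u` and `v`. -/
def DistanceRegular (G : SimpleGraph V) [DecidableRel G.Adj] : Prop :=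
  G.Connected ∧ ∀ u v u' v' : V, G.dist u v = G.dist u' v' → ∀ j : ℕ,
    (Finset.univ.filter (fun w => G.Adj v w ∧ G.dist u w = j)).card =
    (Finset.univ.filter (fun w => G.Adj v' w ∧ G.dist u' w = j)).card

/-- `M` is the average mixing matrix of `G`: for the spectral decomposition `A = Σ θ E_θ` of the
adjacency matrix (`s` is the set of the eigenvalues and the `E_θ`, `θ ∈ s`, are nonzero mutually
orthogonal idempotents with sum `1`; they are the orthogonal projections onto the eigenspaces) `M` is
the sum of the Schur squares `E_θ ∘ E_θ`. -/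
def IsAverageMixing (G : SimpleGraph V) [DecidableRel G.Adj] (M : Matrix V V ℝ) : Prop :=
  ∃ (s : Finset ℝ) (E : ℝ → Matrix V V ℝ),
    (∀ θ ∈ s, E θ * E θ = E θ ∧ (E θ).transpose = E θ ∧ E θ ≠ 0) ∧
    (∀ θ ∈ s, ∀ θ' ∈ s, θ ≠ θ' → E θ * E θ' = 0) ∧
    (∑ θ ∈ s, E θ) = 1 ∧
    G.adjMatrix ℝ = ∑ θ ∈ s, θ • E θ ∧
    M = ∑ θ ∈ s, Matrix.hadamard (E θ) (E θ)

/-- The distance-`i` graph. -/
def distGraph (G : SimpleGraph V) (i : ℕ) : SimpleGraph V :=
  SimpleGraph.fromRel (fun u v => G.dist u v = i)

section spectral

variable (G : SimpleGraph V) [DecidableRel G.Adj]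

/-- The adjacency matrix as an operator on `ℝ^V` (used only for the existence). -/
noncomputable def op : Module.End ℝ (EuclideanSpace ℝ V) :=
  Matrix.toEuclideanLin (G.adjMatrix ℝ)

/-- The matrix of the orthogonal projection onto the `θ`-eigenspace (used only for the
existence). -/
noncomputable def proj (θ : ℝ) : Matrix V V ℝ :=
  Matrix.toEuclideanLin.symm
    ((Module.End.eigenspace (op G) θ).starProjection : Module.End ℝ (EuclideanSpace ℝ V))

theorem op_symm : (op G).IsSymmetric := by
  rw [op, Matrix.isSymmetric_toEuclideanLin_iff]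
  rw [Matrix.IsHermitian, Matrix.conjTranspose_eq_transpose_of_trivial]
  exact G.isSymm_adjMatrix (α := ℝ)

theorem toE_mul (M N : Matrix V V ℝ) (v : EuclideanSpace ℝ V) :
    Matrix.toEuclideanLin (M * N) v = Matrix.toEuclideanLin M (Matrix.toEuclideanLin N v) := by
  simp only [Matrix.toLpLin_apply, Matrix.mulVec_mulVec]

theorem toE_proj (θ : ℝ) (v : EuclideanSpace ℝ V) :
    Matrix.toEuclideanLin (proj G θ) v = (Module.End.eigenspace (op G) θ).starProjection v := by
  rw [proj, LinearEquiv.apply_symm_apply]
  rfl

theorem sum_proj (v : EuclideanSpace ℝ V) :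
    ∑ θ : Module.End.Eigenvalues (op G),
      (Module.End.eigenspace (op G) θ).starProjection v = v := by
  have h1 := (op_symm G).orthogonalFamily_eigenspaces'
  refine h1.sum_projection_of_mem_iSup v ?_
  have h2 : (⨆ θ : Module.End.Eigenvalues (op G), Module.End.eigenspace (op G) θ) = ⊤ := by
    rw [← Submodule.orthogonal_eq_bot_iff]
    exact (op_symm G).orthogonalComplement_iSup_eigenspaces_eq_bot'
  rw [h2]
  trivial

theorem spec : Spec (G.adjMatrix ℝ)
    (Finset.univ.image (fun θ : Module.End.Eigenvalues (op G) => (θ : ℝ))) (proj G) := by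
  have hinj : ∀ θ ∈ (Finset.univ : Finset (Module.End.Eigenvalues (op G))),
      ∀ θ' ∈ (Finset.univ : Finset (Module.End.Eigenvalues (op G))),
      (θ : ℝ) = (θ' : ℝ) → θ = θ' := fun θ _ θ' _ h => Subtype.ext h
  refine ⟨?_, ?_, ?_, ?_⟩
  · intro θ _
    apply Matrix.toEuclideanLin.injective
    apply LinearMap.ext
    intro v
    rw [toE_mul, toE_proj, toE_proj]
    exact Submodule.starProjection_eq_self_iff.2 (Submodule.starProjection_apply_mem _ v)
  · intro θ _ θ' _ hne
    apply Matrix.toEuclideanLin.injective
    apply LinearMap.ext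
    intro v
    rw [toE_mul, toE_proj, toE_proj, map_zero, LinearMap.zero_apply]
    have h1 : Module.End.eigenspace (op G) θ ⟂ Module.End.eigenspace (op G) θ' :=
      (op_symm G).orthogonalFamily_eigenspaces.isOrtho hne
    have h2 := congrArg (fun f => f v) h1.starProjection_comp_starProjection
    exact h2
  · rw [Finset.sum_image hinj]
    apply Matrix.toEuclideanLin.injective
    apply LinearMap.ext
    intro v
    rw [map_sum, LinearMap.sum_apply]
    simp only [toE_proj]
    rw [sum_proj]
    simp
  · rw [Finset.sum_image hinj]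
    apply Matrix.toEuclideanLin.injective
    apply LinearMap.ext
    intro v
    rw [map_sum, LinearMap.sum_apply]
    simp only [map_smul, LinearMap.smul_apply, toE_proj]
    have h1 : Matrix.toEuclideanLin (G.adjMatrix ℝ) v = op G v := rfl
    rw [h1]
    conv_lhs => rw [← sum_proj G v]
    rw [map_sum]
    refine Finset.sum_congr rfl fun θ _ => ?_
    exact Module.End.mem_eigenspace_iff.1 (Submodule.starProjection_apply_mem _ v)

theorem proj_ne (θ : Module.End.Eigenvalues (op G)) : proj G θ ≠ 0 := by
  intro h
  obtain ⟨v, hv, hv0⟩ := Submodule.exists_mem_ne_zero_of_ne_bot θ.2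
  have h1 := toE_proj G θ v
  have h2 : (Module.End.eigenspace (op G) θ).starProjection v = v :=
    Submodule.starProjection_eq_self_iff.2 hv
  rw [h, map_zero, LinearMap.zero_apply, h2] at h1
  exact hv0 h1.symm

theorem proj_transpose (θ : ℝ) : (proj G θ).transpose = proj G θ := by
  have h1 : (Matrix.toEuclideanLin (proj G θ)).IsSymmetric := by
    intro u v
    rw [toE_proj, toE_proj]
    exact (Submodule.starProjection_isSymmetric (K := Module.End.eigenspace (op G) θ)) u v
  rw [Matrix.isSymmetric_toEuclideanLin_iff] at h1
  rwa [Matrix.IsHermitian, Matrix.conjTranspose_eq_transpose_of_trivial] at h1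

theorem exists_avg : ∃ M, IsAverageMixing G M := by
  have h := spec G
  refine ⟨_, Finset.univ.image (fun θ : Module.End.Eigenvalues (op G) => (θ : ℝ)), proj G,
    ?_, h.orth, h.one, h.dec, rfl⟩
  intro θ hθ
  refine ⟨h.idem θ hθ, proj_transpose G θ, ?_⟩
  obtain ⟨μ, _, rfl⟩ := Finset.mem_image.1 hθ
  exact proj_ne G μ

end spectral

theorem conn_closed {H : SimpleGraph V} (hH : H.Connected) (P : V → Prop)
    (hP : ∀ a b, H.Adj a b → P a → P b) {x : V} (hx : P x) (y : V) : P y := by
  obtain ⟨p⟩ := hH.preconnected x y
  induction p with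
  | nil => exact hx
  | cons hadj _ ih => exact ih (hP _ _ hadj hx)

theorem distGraph_adj {G : SimpleGraph V} {i : ℕ} {x y : V} (h : (distGraph G i).Adj x y) :
    G.dist x y = i := by
  rw [distGraph, SimpleGraph.fromRel_adj] at h
  rcases h.2 with h1 | h1
  · exact h1
  · rw [SimpleGraph.dist_comm]
    exact h1

/-- Let `G` be a distance-regular graph on at least two vertices, `d` its diameter and `M` its average
mixing matrix. Then `M z = 0` if and only if `z` takes opposite values at any two vertices at distance
`d`. If every vertex has exactly one vertex at distance `d` then the rank of `M` is half the number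
of vertices; otherwise, if `G` is bipartite and `d` is odd then `M` has corank one, and in all other
cases `M` is invertible. In particular `M` is invertible if all the graphs `G_i`, `1 ≤ i ≤ d`, are
connected and `G` has more than two vertices. -/
theorem result :
    ∀ (V : Type) [Fintype V] [DecidableEq V] [Nontrivial V] (G : SimpleGraph V)
      [DecidableRel G.Adj], DistanceRegular G →
      (∃ M, IsAverageMixing G M) ∧
      ∀ M, IsAverageMixing G M →
        (∀ z : V → ℝ, M.mulVec z = 0 ↔ ∀ x y, G.dist x y = G.diam → z y = - z x) ∧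
        ((∀ x, ∃! y, G.dist x y = G.diam) → 2 * M.rank = Fintype.card V) ∧
        ((¬ ∀ x, ∃! y, G.dist x y = G.diam) → G.Colorable 2 → Odd G.diam →
          M.rank + 1 = Fintype.card V) ∧
        ((¬ ∀ x, ∃! y, G.dist x y = G.diam) → ¬ (G.Colorable 2 ∧ Odd G.diam) →
          M.rank = Fintype.card V) ∧
        ((∀ i, 1 ≤ i → i ≤ G.diam → (distGraph G i).Connected) → Fintype.card V ≠ 2 →
          M.rank = Fintype.card V) := by
  intro V _ _ _ G _ hG
  refine ⟨exists_avg G, ?_⟩
  intro M hMix
  obtain ⟨hc, hlr⟩ := hG
  have hd : DR G := DR_of_LR hc hlr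
  have hle : ∀ x y, G.dist x y ≤ G.diam := fun x y =>
    SimpleGraph.dist_le_diam (SimpleGraph.connected_iff_ediam_ne_top.1 hc)
  obtain ⟨a, b, hab⟩ : ∃ a b, G.dist a b = G.diam := G.exists_dist_eq_diam
  have hd0 : 0 < G.diam := by
    obtain ⟨x, y, hxy⟩ := exists_pair_ne V
    exact lt_of_lt_of_le (hc.pos_dist_of_ne hxy) (hle x y)
  have hM : ∀ z : V → ℝ, M.mulVec z = 0 ↔ Alt G G.diam z := by
    intro z
    obtain ⟨s, E, h1, h2, h3, h4, h5⟩ := hMix
    rw [h5]
    have h : Spec (G.adjMatrix ℝ) s E := ⟨fun θ hθ => (h1 θ hθ).1, h2, h3, h4⟩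
    exact h.ker_iff hc hd hle hab z
  have h3 : (¬ ∀ x, ∃! y, G.dist x y = G.diam) → ¬ (G.Colorable 2 ∧ Odd G.diam) →
      M.rank = Fintype.card V := fun hu hno =>
    rank_rest hc hd hle hab hM (two_of_not_unique hd hab hu) hno
  refine ⟨hM, fun hu => rank_unique hc hd0 hM hu, fun hu hcol hodd =>
    rank_bip hc hd hle hab hM (two_of_not_unique hd hab hu) hcol hodd, h3, ?_⟩
  intro hprim hcard
  apply h3
  · -- one vertex at distance d from each vertex and a connected distance-d graph: two vertices
    intro hu
    apply hcard
    have hconn := hprim G.diam hd0 le_rfl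
    have hall : ∀ v, v = a ∨ v = b := by
      intro v
      refine conn_closed hconn (fun v => v = a ∨ v = b) ?_ (x := a) (Or.inl rfl) v
      intro u w huw h
      have h1 := distGraph_adj huw
      rcases h with h | h
      · right
        rw [h] at h1
        exact (hu a).unique h1 hab
      · left
        rw [h] at h1
        exact (hu b).unique h1 (by rw [SimpleGraph.dist_comm]; exact hab)
    have hne : a ≠ b := by
      intro h
      rw [h, SimpleGraph.dist_self] at hab
      omega
    have huniv : (Finset.univ : Finset V) = {a, b} := by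
      ext v
      simp only [Finset.mem_univ, Finset.mem_insert, Finset.mem_singleton, true_iff]
      exact hall v
    rw [← Finset.card_univ, huniv, Finset.card_pair hne]
  · rintro ⟨hcol, -⟩
    have c : G.Coloring Bool := hcol.toColoring (by simp)
    rcases Nat.lt_or_ge G.diam 2 with h1 | h1
    · -- a complete bipartite graph with all vertices adjacent
      apply hcard
      have hadj : ∀ x y, x ≠ y → G.Adj x y := by
        intro x y hxy
        have h2 := hc.pos_dist_of_ne hxy
        have h4 := hle x y
        exact SimpleGraph.dist_eq_one_iff_adj.1 (by omega)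
      have h5 : Fintype.card V ≤ Fintype.card Bool := by
        refine Fintype.card_le_of_injective c ?_
        intro x y hxy
        by_contra hne
        exact c.valid (hadj x y hne) hxy
      have h6 : 1 < Fintype.card V := Fintype.one_lt_card
      rw [Fintype.card_bool] at h5
      omega
    · have h2 := hprim 2 (by norm_num) h1
      have hconst : ∀ v, c v = c a := by
        intro v
        refine conn_closed h2 (fun v => c v = c a) ?_ (x := a) rfl v
        intro u w huw hu
        obtain ⟨p, hp⟩ := hc.exists_walk_length_eq_dist u w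
        have h4 := (c.even_length_iff_congr p).1 (by
          rw [hp, distGraph_adj huw]
          exact even_two)
        rw [← hu]
        cases hcu : c u <;> cases hcw : c w <;> simp_all
      obtain ⟨a', ha', _⟩ := pred hc (x := a) (y := b) (j := G.diam - 1) (by omega)
      exact c.valid ha' (hconst a').symm

end Pool.Agent.Results.MP_127f79_co.AllDistanceRegular
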